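import Pool.Agent.H295R3.D6.Stmts

set_option autoImplicit false

open Finset Filter

namespace Pool.Agent.H644R3.D6

open Pool.Agent.H295R3.D6

/-- `v_q (B!) = 1` for `q ≤ B < 2 q` -/
theorem fact_val (q B : ℕ) (hq : q.Prime) (h1 : B < 2 * q) (h2 : q ≤ B) :
    (B.factorial).factorization q = 1 := by
  induction B, h2 using Nat.le_induction with
  | base =>
    obtain ⟨r, rfl⟩ : ∃ r, q = r + 1 := ⟨q - 1, (Nat.succ_pred_eq_of_pos hq.pos).symm⟩
    rw [Nat.factorial_succ, Nat.factorization_mul (by omega) (Nat.factorial_ne_zero _)]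
    rw [Finsupp.add_apply, hq.factorization_self,
      Nat.factorization_factorial_eq_zero_of_lt (Nat.lt_succ_self r)]
  | succ n hn ih =>
    rw [Nat.factorial_succ, Nat.factorization_mul (by omega) (Nat.factorial_ne_zero _)]
    rw [Finsupp.add_apply, ih (by omega)]
    have : ¬ q ∣ n + 1 := by
      rintro ⟨c, hc⟩
      rcases Nat.lt_or_ge c 2 with h | h
      · interval_cases c
        · omega
        · omega
      · nlinarith
    rw [Nat.factorization_eq_zero_of_not_dvd this]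

theorem blk_pos (a b : ℕ) : 0 < blk a b := by
  unfold blk
  apply Finset.prod_pos
  intro n hn
  rw [Finset.mem_Ioc] at hn
  omega

theorem log_blk_le (a b N : ℕ) (hb : b ≤ N) :
    Real.log (blk a b : ℕ) ≤ ((b - a : ℕ) : ℝ) * Real.log N := by
  unfold blk
  rw [Nat.cast_prod, Real.log_prod (fun n hn => ?_)]
  · have h1 : ∀ n ∈ Ioc a b, Real.log (n : ℕ) ≤ Real.log N := by
      intro n hn
      rw [Finset.mem_Ioc] at hn
      apply Real.log_le_log
      · exact_mod_cast (by omega : 0 < n)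
      · exact_mod_cast hn.2.trans hb
    calc ∑ n ∈ Ioc a b, Real.log (n : ℕ) ≤ ∑ n ∈ Ioc a b, Real.log N := Finset.sum_le_sum h1
      _ = _ := by rw [Finset.sum_const, Nat.card_Ioc, nsmul_eq_mul]
  · rw [Finset.mem_Ioc] at hn
    exact_mod_cast (by omega : n ≠ 0)

/-- primes in `(B/2, B]` divide the product of the blocks -/
theorem dvd_blk (m b₂ b₃ b₄ B : ℕ) (h : Rel m b₂ b₃ b₄ B) (q : ℕ) (hq : q.Prime) (h1 : B < 2 * q)
    (h2 : q ≤ B) : q ∣ blk b₂ m * blk b₄ b₃ := by
  obtain ⟨-, -, -, -, r, hr⟩ := h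
  have hX : blk b₂ m * blk b₄ b₃ ≠ 0 := Nat.mul_ne_zero (blk_pos _ _).ne' (blk_pos _ _).ne'
  have h3 : (blk b₂ m * blk b₄ b₃ * B.factorial).factorization q =
      (blk b₂ m * blk b₄ b₃).factorization q + 1 := by
    rw [Nat.factorization_mul hX (Nat.factorial_ne_zero _), Finsupp.add_apply, fact_val q B hq h1 h2]
  have hr0 : r ≠ 0 := by
    rintro rfl
    have := Nat.mul_ne_zero hX (Nat.factorial_ne_zero B)
    exact this (by rw [hr])
  rw [hr, Nat.factorization_mul hr0 hr0, Finsupp.add_apply] at h3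
  by_contra hcon
  rw [Nat.factorization_eq_zero_of_not_dvd hcon] at h3
  omega

theorem taskA3 : TaskA3 := by
  rintro ⟨B₀, hB₀2, hB₀⟩
  have hev : ∀ᶠ N : ℕ in atTop, (B₀ : ℝ) ≤ Real.log N :=
    (Real.tendsto_log_atTop.comp tendsto_natCast_atTop_atTop).eventually_ge_atTop _
  filter_upwards [hev, eventually_ge_atTop 1] with N hN hN1 m b₂ b₃ b₄ B hmN hrel
  have hrel' := hrel
  obtain ⟨h1, h2, h3, h4, -⟩ := hrel'
  have hlog0 : 0 ≤ Real.log N := Real.log_natCast_nonneg N
  set M := max (m - b₂) (b₃ - b₄) with hM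
  have hM1 : 1 ≤ M := le_trans (by omega) (le_max_left _ _)
  have hM1' : (1 : ℝ) ≤ M := by exact_mod_cast hM1
  rcases Nat.lt_or_ge B B₀ with hB | hB
  · have : (B : ℝ) ≤ B₀ := by exact_mod_cast hB.le
    nlinarith
  · have hs := hB₀ B hB
    have hX := blk_pos b₂ m
    have hY := blk_pos b₄ b₃
    have hdvd : ∏ q ∈ (Ioc (B / 2) B).filter Nat.Prime, q ∣ blk b₂ m * blk b₄ b₃ := by
      apply Finset.prod_primes_dvd
      · intro q hq
        exact (Finset.mem_filter.mp hq).2.prime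
      · intro q hq
        rw [Finset.mem_filter, Finset.mem_Ioc] at hq
        exact dvd_blk m b₂ b₃ b₄ B hrel q hq.2 (by omega) hq.1.2
    have hle := Nat.le_of_dvd (Nat.mul_pos hX hY) hdvd
    have hle' : Real.log ((∏ q ∈ (Ioc (B / 2) B).filter Nat.Prime, q : ℕ) : ℝ) ≤
        Real.log ((blk b₂ m * blk b₄ b₃ : ℕ) : ℝ) := by
      apply Real.log_le_log
      · apply Nat.cast_pos.mpr
        apply Finset.prod_pos
        intro q hq
        exact (Finset.mem_filter.mp hq).2.pos
      · exact_mod_cast hle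
    rw [Nat.cast_prod, Real.log_prod (fun q hq => by
      exact_mod_cast (Finset.mem_filter.mp hq).2.ne_zero), Nat.cast_mul, Real.log_mul
      (by exact_mod_cast hX.ne') (by exact_mod_cast hY.ne')] at hle'
    have e1 := log_blk_le b₂ m N hmN
    have e2 := log_blk_le b₄ b₃ N (by omega)
    have e3 : ((m - b₂ : ℕ) : ℝ) ≤ M := by exact_mod_cast le_max_left _ _
    have e4 : ((b₃ - b₄ : ℕ) : ℝ) ≤ M := by exact_mod_cast le_max_right _ _
    nlinarith [mul_le_mul_of_nonneg_right e3 hlog0, mul_le_mul_of_nonneg_right e4 hlog0]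

end Pool.Agent.H644R3.D6
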